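import Pool.Agent.Helper19.CP.Spec

/-!
Swarm CP (MP_2619d0_ag), part REP: equivalent tuples over `L` are equivalent over `L`.
-/

set_option autoImplicit false
set_option linter.all false

namespace Pool.Agent.Helper67.CP.REP

open MvPolynomial Pool.Agent.Helper19.CP

theorem map_sub {R S : Type} [CommRing R] [CommRing S] {m : ℕ} (f : R →+* S)
    (φ : Matrix (Fin m) (Fin m) R) (q : MvPolynomial (Fin m) R) :
    map f (aeval (fun j => ∑ l, C (φ j l) * X l : Fin m → MvPolynomial (Fin m) R) q) =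
      aeval (fun j => ∑ l, C (f (φ j l)) * X l : Fin m → MvPolynomial (Fin m) S) (map f q) := by
  induction q using MvPolynomial.induction_on with
  | C a => rw [aeval_C, map_C, aeval_C, algebraMap_eq, algebraMap_eq, map_C]
  | add p q hp hq => rw [map_add, map_add, hp, hq, map_add, map_add]
  | mul_X p j hp =>
    rw [map_mul, map_mul, hp, map_mul, map_mul, aeval_X, map_X, aeval_X]
    congr 1
    rw [map_sum]
    refine Finset.sum_congr rfl fun l _ => ?_
    rw [map_mul, map_C, map_X]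

theorem over_iff {m : ℕ} (K : Subfield ℂ) (p : MvPolynomial (Fin m) ℂ) :
    Over K p ↔ ∃ q : MvPolynomial (Fin m) K, map K.subtype q = p := by
  constructor
  · intro h
    have : p ∈ Set.range (map (σ := Fin m) K.subtype) := by
      rw [mem_range_map_iff_coeffs_subset]
      intro y hy
      obtain ⟨I, hI, rfl⟩ := mem_coeffs_iff.1 hy
      exact ⟨⟨_, h I⟩, rfl⟩
    exact this
  · rintro ⟨q, rfl⟩ α
    rw [coeff_map]
    exact (q.coeff α).2

theorem over_subst {m : ℕ} (K : Subfield ℂ) (φ : Matrix (Fin m) (Fin m) ℂ)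
    (hφ : ∀ i j, φ i j ∈ K) (p : MvPolynomial (Fin m) ℂ) (hp : Over K p) : Over K (subst φ p) := by
  obtain ⟨q, rfl⟩ := (over_iff K p).1 hp
  rw [over_iff]
  refine ⟨aeval (fun j => ∑ l, C (⟨φ j l, hφ j l⟩ : K) * X l) q, ?_⟩
  rw [map_sub K.subtype (fun j l => (⟨φ j l, hφ j l⟩ : K))]
  rfl

theorem map_over {m : ℕ} (K : Subfield ℂ) (τ : ℂ ≃+* ℂ) (hτ : Fixes K τ)
    (p : MvPolynomial (Fin m) ℂ) (hp : Over K p) : map (τ : ℂ →+* ℂ) p = p := by
  ext α
  rw [coeff_map]
  exact hτ _ (hp α)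

theorem subst_smul {m : ℕ} (t : ℂ) (φ : Matrix (Fin m) (Fin m) ℂ) (D : ℕ)
    (p : MvPolynomial (Fin m) ℂ) (hp : p.IsHomogeneous D) :
    subst (t • φ) p = C (t ^ D) * subst φ p := by
  unfold subst
  rw [aeval_def, aeval_def, eval₂_eq', eval₂_eq', Finset.mul_sum]
  refine Finset.sum_congr rfl fun d hd => ?_
  have h1 : d.degree = D := by
    rw [Finsupp.degree_eq_weight_one]
    exact hp (mem_support_iff.1 hd)
  have h2 : ∏ i, (∑ l, C ((t • φ) i l) * X l : MvPolynomial (Fin m) ℂ) ^ d i =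
      C (t ^ D) * ∏ i, (∑ l, C (φ i l) * X l : MvPolynomial (Fin m) ℂ) ^ d i := by
    rw [← h1, Finsupp.degree_eq_sum, C_pow, ← Finset.prod_pow_eq_pow_sum,
      ← Finset.prod_mul_distrib]
    refine Finset.prod_congr rfl fun i _ => ?_
    rw [← mul_pow]
    congr 1
    rw [Finset.mul_sum]
    refine Finset.sum_congr rfl fun l _ => ?_
    rw [Matrix.smul_apply, smul_eq_mul, C_mul, mul_assoc]
  rw [h2]
  ring

theorem alg_mono (K L : Subfield ℂ) (h : K ≤ L) (x : ℂ) (hx : x ∈ Alg K) : IsAlgebraic L x := by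
  have h1 : IsAlgebraic K x := (mem_algebraicClosure_iff).1 hx
  letI : Algebra K L := (Subfield.inclusion h).toAlgebra
  haveI : IsScalarTower K L ℂ := IsScalarTower.of_algebraMap_eq fun x => rfl
  exact h1.tower_top L

theorem main (h1 : S_FIX) (h2 : S_UNI) : S_REP := by
  intro n D F K L G G' hKL hG hGL hG'L hE
  obtain ⟨c, φ, hc, hφ, hc0, hdet, hGG⟩ := hE
  -- a nonzero entry
  obtain ⟨a, b, hab⟩ : ∃ a b, φ a b ≠ 0 := by
    by_contra h
    push Not at h
    apply hdet
    have : φ = 0 := by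
      ext i j
      exact h i j
    rw [this]
    exact Matrix.det_zero
  set t := φ a b with ht
  set ψ : Matrix (Fin (n + 1)) (Fin (n + 1)) ℂ := t⁻¹ • φ with hψ
  set e : ℂ := c * t ^ D with he
  have hφψ : φ = t • ψ := by
    rw [hψ, smul_smul, mul_inv_cancel₀ hab, one_smul]
  have he0 : e ≠ 0 := mul_ne_zero hc0 (pow_ne_zero _ hab)
  have hψG : ∀ i, G' i = C e * subst ψ (G i) := by
    intro i
    rw [hGG i, hφψ, subst_smul t ψ D (G i) (hG.hom i), ← mul_assoc, ← C_mul]
  have hψdet : ψ.det ≠ 0 := by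
    rw [hψ, Matrix.det_smul]
    exact mul_ne_zero (pow_ne_zero _ (inv_ne_zero hab)) hdet
  have hψab : ψ a b = 1 := by
    rw [hψ, Matrix.smul_apply, smul_eq_mul]
    exact inv_mul_cancel₀ hab
  have hψA : ∀ i j, IsAlgebraic L (ψ i j) := by
    intro i j
    apply alg_mono K L hKL
    rw [hψ, Matrix.smul_apply, smul_eq_mul]
    exact (Alg K).mul_mem ((Alg K).inv_mem (hφ a b)) (hφ i j)
  have hψL : ∀ i j, ψ i j ∈ L := by
    intro i j
    refine h1 L _ (hψA i j) fun τ hτ => ?_
    have h3 : ∀ i, C e * subst ψ (G i) = C (τ e) * subst (ψ.map τ) (G i) := by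
      intro i
      have h4 := congrArg (map (τ : ℂ →+* ℂ)) (hψG i)
      rw [map_over L τ hτ _ (hG'L i), map_mul, map_C] at h4
      rw [← hψG i]
      refine h4.trans ?_
      congr 1
      unfold subst
      rw [map_sub, map_over L τ hτ _ (hGL i)]
      rfl
    have h5 : (ψ.map τ).det ≠ 0 := by
      have h6 : (ψ.map τ).det = τ ψ.det := (RingEquiv.map_det τ ψ).symm
      rw [h6]
      exact (map_ne_zero τ).2 hψdet
    obtain ⟨μ, hμ0, hμ⟩ := h2 n D F G hG e (τ e) ψ (ψ.map τ) he0 ((map_ne_zero τ).2 he0) hψdet h5 h3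
    have h7 : μ = 1 := by
      have h8 := congrFun (congrFun hμ a) b
      rw [Matrix.map_apply, Matrix.smul_apply, smul_eq_mul, hψab, map_one, mul_one] at h8
      exact h8.symm
    have h9 := congrFun (congrFun hμ i) j
    rw [h7, one_smul, Matrix.map_apply] at h9
    exact h9
  by_cases hz : ∀ i α, (subst ψ (G i)).coeff α = 0
  · refine ⟨1, ψ, L.one_mem, hψL, one_ne_zero, hψdet, fun i => ?_⟩
    have h3 : subst ψ (G i) = 0 := by
      ext α
      rw [hz i α, coeff_zero]
    rw [hψG i, h3, mul_zero, mul_zero]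
  · push Not at hz
    obtain ⟨i, α, hα⟩ := hz
    refine ⟨e, ψ, ?_, hψL, he0, hψdet, hψG⟩
    have h3 : (G' i).coeff α = e * (subst ψ (G i)).coeff α := by
      rw [hψG i, coeff_C_mul]
    have h4 : e = (G' i).coeff α / (subst ψ (G i)).coeff α := by
      rw [h3, mul_div_assoc, div_self hα, mul_one]
    rw [h4]
    exact L.div_mem (hG'L i α) (over_subst L ψ hψL (G i) (hGL i) α)

end Pool.Agent.Helper67.CP.REP
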